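import Pool.Agent.H33.Core

set_option autoImplicit false

namespace Pool.Agent.Results.MP_a053e2_nt.SublinearSchwartzZippel

open MvPolynomial Filter Topology

/-- The Hilbert function of the graded ring `S/P`, where `S = ℚ[x_0, …, x_n]`: the dimension
`dim (S/P)_t = dim S_t - dim (P ∩ S_t)` of its part of degree `t`. -/
noncomputable def hilbertFn (n : ℕ) (P : Ideal (MvPolynomial (Fin (n + 1)) ℚ)) (t : ℕ) : ℕ :=
  Module.finrank ℚ (homogeneousSubmodule (Fin (n + 1)) ℚ t) -
    Module.finrank ℚ ↥(homogeneousSubmodule (Fin (n + 1)) ℚ t ⊓ P.restrictScalars ℚ)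

/-- `hilbertFn` is the dimension of the image in `S/P` of the space of forms of degree `t`. -/
lemma hilbertFn_eq (n : ℕ) (P : Ideal (MvPolynomial (Fin (n + 1)) ℚ)) (t : ℕ) :
    hilbertFn n P t = Module.finrank ℚ
      ((homogeneousSubmodule (Fin (n + 1)) ℚ t).map (Ideal.Quotient.mkₐ ℚ P).toLinearMap) := by
  have h := Pool.Agent.H33.hf_add_hfI (K := ℚ) P t
  unfold Pool.Agent.H33.hf Pool.Agent.H33.hfI Pool.Agent.H33.hs at h
  unfold hilbertFn
  omega

/-- The degree of the integral `k`-dimensional closed subscheme `V(P)` of projective `n`-space: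
`k!` times the leading coefficient of the Hilbert polynomial of `S/P`, i.e. the limit of
`k! * dim (S/P)_t / t^k` as `t → ∞`. (The limit exists, see `primeDegree_tendsto` below.) -/
noncomputable def primeDegree (n k : ℕ) (P : Ideal (MvPolynomial (Fin (n + 1)) ℚ)) : ℝ :=
  limUnder atTop (fun t : ℕ => ((k.factorial : ℝ) * (hilbertFn n P t : ℝ)) / (t : ℝ) ^ k)

/-- The degree of the closed subscheme `V(I)` of pure dimension `k`: the sum of the degrees of its
irreducible components, which correspond to the minimal primes of `I`. -/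
noncomputable def degree (n k : ℕ) (I : Ideal (MvPolynomial (Fin (n + 1)) ℚ)) : ℝ :=
  ∑ P ∈ (Ideal.finite_minimalPrimes_of_isNoetherianRing _ I).toFinset, primeDegree n k P

/-- `X(ℚ, B)` for `X = V(I)`: the rational points of projective `n`-space at which all elements of
`I` vanish and which admit homogeneous integer coordinates of absolute value at most `B`. -/
def points (n : ℕ) (I : Ideal (MvPolynomial (Fin (n + 1)) ℚ)) (B : ℝ) :
    Set (Projectivization ℚ (Fin (n + 1) → ℚ)) :=
  {x | (∀ f ∈ I, eval x.rep f = 0) ∧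
    ∃ (z : Fin (n + 1) → ℤ) (hz : (fun i => (z i : ℚ)) ≠ 0),
      (∀ i, |(z i : ℝ)| ≤ B) ∧ x = Projectivization.mk ℚ (fun i => (z i : ℚ)) hz}

open Pool.Agent.H33 in
lemma exists_NN_of_dim {n k : ℕ} {P : Ideal (MvPolynomial (Fin (n + 1)) ℚ)} (hP : P.IsPrime)
    (hPh : IsHomog P) (hd : ringKrullDim (MvPolynomial (Fin (n + 1)) ℚ ⧸ P) = k + 1) :
    ∃ y : Fin (k + 1) → MvPolynomial (Fin (n + 1)) ℚ, NN P (k + 1) y := by
  by_cases hall : ∀ i, (X i : MvPolynomial (Fin (n + 1)) ℚ) ∈ P
  · exfalso
    have hN : NN P 0 (fun i : Fin 0 => i.elim0) := by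
      refine ⟨fun i => i.elim0, ?_, ?_⟩
      · rw [injective_iff_map_eq_zero]
        intro F hF
        rw [phi_eq_zero] at hF
        obtain ⟨c, rfl⟩ := C_surjective (Fin 0) F
        rw [aeval_C] at hF
        by_contra hc
        have hc0 : c ≠ 0 := by
          rintro rfl
          exact hc (map_zero _)
        have h3 : (algebraMap ℚ (MvPolynomial (Fin (n + 1)) ℚ) c⁻¹) *
            (algebraMap ℚ (MvPolynomial (Fin (n + 1)) ℚ) c) ∈ P := P.mul_mem_left _ hF
        rw [← map_mul, inv_mul_cancel₀ hc0, map_one] at h3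
        exact hP.ne_top ((Ideal.eq_top_iff_one P).2 h3)
      · apply RingHom.isIntegral_of_surjective
        intro x
        obtain ⟨f, rfl⟩ := Ideal.Quotient.mk_surjective x
        refine ⟨C (coeff 0 f), ?_⟩
        show phi P _ _ = _
        rw [phi_apply, aeval_C, Ideal.Quotient.eq]
        have h1 : ∀ g : MvPolynomial (Fin (n + 1)) ℚ, C (coeff 0 g) - g ∈ P := by
          intro g
          induction g using MvPolynomial.induction_on with
          | C a => simp
          | add p q hp hq =>
            have := P.add_mem hp hq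
            rw [coeff_add, C_add]
            convert this using 1
            ring
          | mul_X p i hp =>
            have h2 : coeff 0 (p * X i) = 0 := by
              rw [coeff_mul_X']
              simp
            rw [h2, C_0, zero_sub]
            exact P.neg_mem (P.mul_mem_left _ (hall i))
        exact h1 f
    have h1 := NN_ringKrullDim hN
    rw [hd] at h1
    have h2 : ((k + 1 : ℕ) : WithBot ℕ∞) = ((0 : ℕ) : WithBot ℕ∞) := by exact_mod_cast h1
    have h3 : k + 1 = 0 := by exact_mod_cast h2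
    omega
  · push Not at hall
    obtain ⟨i, hi⟩ := hall
    obtain ⟨r, y, hN, -⟩ := exists_NN P hPh (X i) (isHomogeneous_X ℚ i) hi
    have h1 := NN_ringKrullDim hN
    rw [hd] at h1
    have h2 : ((k + 1 : ℕ) : WithBot ℕ∞) = ((r + 1 : ℕ) : WithBot ℕ∞) := by exact_mod_cast h1
    have h3 : k + 1 = r + 1 := by exact_mod_cast h2
    have h4 : r = k := by omega
    subst h4
    exact ⟨y, hN⟩

open Pool.Agent.H33 in
/-- The limit defining the degree of `V(P)` exists and is at least `1`. -/
lemma primeDegree_tendsto {n k : ℕ} {P : Ideal (MvPolynomial (Fin (n + 1)) ℚ)} (hP : P.IsPrime)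
    (hPh : ∀ f ∈ P, ∀ t, homogeneousComponent t f ∈ P)
    (hd : ringKrullDim (MvPolynomial (Fin (n + 1)) ℚ ⧸ P) = k + 1) :
    Tendsto (fun t : ℕ => ((k.factorial : ℝ) * (hilbertFn n P t : ℝ)) / (t : ℝ) ^ k) atTop
      (𝓝 (primeDegree n k P)) ∧ 1 ≤ primeDegree n k P := by
  obtain ⟨y, hy⟩ := exists_NN_of_dim hP hPh hd
  obtain ⟨d, hd1, hd2⟩ := exists_hasDeg hPh hy
  simp only [HasDeg, hf, ← hilbertFn_eq] at hd2
  have h1 : primeDegree n k P = d := Tendsto.limUnder_eq hd2
  rw [h1]
  exact ⟨hd2, hd1⟩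

open Pool.Agent.H33 in
/-- **The sublinear projective Schwartz-Zippel bound.** -/
theorem result (n : ℕ) (hn : 1 ≤ n) (k : ℕ) (hk : k ≤ n) :
    ∃ c : ℝ, ∀ I : Ideal (MvPolynomial (Fin (n + 1)) ℚ),
      (∀ f ∈ I, ∀ t, homogeneousComponent t f ∈ I) → I.IsRadical →
      (∀ P ∈ I.minimalPrimes, ringKrullDim (MvPolynomial (Fin (n + 1)) ℚ ⧸ P) = k + 1) →
      ∀ B : ℝ, 1 ≤ B → (points n I B).Finite ∧
        ((points n I B).ncard : ℝ) ≤ c * degree n k I ^ ((n : ℝ) / (n + 1)) * B ^ (k + 1) := by
  classical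
  obtain ⟨c, hc0, hc⟩ := core_count n k hn hk
  refine ⟨c, ?_⟩
  intro I hI _ hdim B hB
  set Bn : ℕ := ⌊B⌋₊ with hBn
  have hBn1 : 1 ≤ Bn := Nat.le_floor (by exact_mod_cast hB)
  have hBnB : (Bn : ℝ) ≤ B := Nat.floor_le (by linarith)
  -- choose integer coordinates
  have hex : ∀ x : Projectivization ℚ (Fin (n + 1) → ℚ), ∃ z : Fin (n + 1) → ℤ,
      x ∈ points n I B → supN z ≤ Bn ∧
        ∃ hz : (fun i => (z i : ℚ)) ≠ 0, x = Projectivization.mk ℚ (fun i => (z i : ℚ)) hz := by
    intro x
    by_cases hx : x ∈ points n I B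
    · obtain ⟨-, z, hz, hz1, hz2⟩ := hx
      refine ⟨z, fun _ => ⟨?_, hz, hz2⟩⟩
      rw [supN_le_iff]
      intro i
      apply Nat.le_floor
      have h9 := hz1 i
      rw [← Int.cast_abs, Int.abs_eq_natAbs, Int.cast_natCast] at h9
      exact h9
    · exact ⟨0, fun h => absurd h hx⟩
  choose z hz using hex
  have hinj : Set.InjOn z (points n I B) := by
    intro x hx x' hx' hxx
    obtain ⟨-, h1, h2⟩ := hz x hx
    obtain ⟨-, h1', h2'⟩ := hz x' hx'
    rw [h2, h2']
    congr 1
    rw [hxx]
  have hbox : (Fintype.piFinset (fun _ : Fin (n + 1) => Finset.Icc (-(Bn : ℤ)) Bn) :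
      Set (Fin (n + 1) → ℤ)).Finite := Finset.finite_toSet _
  have hmaps : Set.MapsTo z (points n I B)
      (Fintype.piFinset (fun _ : Fin (n + 1) => Finset.Icc (-(Bn : ℤ)) Bn) :
      Set (Fin (n + 1) → ℤ)) := by
    intro x hx
    rw [Finset.mem_coe, Fintype.mem_piFinset]
    intro i
    have := (natAbs_le_supN (z x) i).trans (hz x hx).1
    rw [Finset.mem_Icc]
    omega
  have hfin : (points n I B).Finite := Set.Finite.of_injOn hmaps hinj hbox
  refine ⟨hfin, ?_⟩
  have hfm : I.minimalPrimes.Finite := Ideal.finite_minimalPrimes_of_isNoetherianRing _ I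
  have h := hc hfm.toFinset (primeDegree n k) (by
    intro P hP
    rw [Set.Finite.mem_toFinset] at hP
    have hPh := isHomog_minimalPrime hI hP
    refine ⟨hP.1.1, hPh, ?_, exists_NN_of_dim hP.1.1 hPh (hdim P hP)⟩
    simp only [HasDeg, hf, ← hilbertFn_eq]
    exact (primeDegree_tendsto hP.1.1 hPh (hdim P hP)).1) Bn hBn1 (hfin.toFinset.image z) (by
    intro p hp
    rw [Finset.mem_image] at hp
    obtain ⟨x, hx, rfl⟩ := hp
    rw [Set.Finite.mem_toFinset] at hx
    obtain ⟨h1, h2, h3⟩ := hz x hx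
    refine ⟨?_, h1, ?_⟩
    · intro h0
      apply h2
      funext i
      rw [h0]
      simp
    · -- a minimal prime vanishing at the representative
      have hle : I ≤ RingHom.ker (eval x.rep) := fun f hf => hx.1 f hf
      have hpr : (RingHom.ker (eval x.rep)).IsPrime := RingHom.ker_isPrime _
      obtain ⟨R, hR, hRle⟩ := Ideal.exists_minimalPrimes_le hle
      refine ⟨R, hfm.mem_toFinset.2 hR, ?_⟩
      have hRh := isHomog_minimalPrime hI hR
      -- `z x` is a scalar multiple of the representative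
      obtain ⟨a, ha⟩ : ∃ a : ℚ, (fun i => ((z x i : ℤ) : ℚ)) = a • x.rep := by
        have h4 : Projectivization.mk ℚ x.rep x.rep_nonzero =
            Projectivization.mk ℚ (fun i => (z x i : ℚ)) h2 := by
          rw [Projectivization.mk_rep]; exact h3
        rw [Projectivization.mk_eq_mk_iff'] at h4
        obtain ⟨a, ha⟩ := h4
        have ha0 : a ≠ 0 := by
          rintro rfl
          rw [zero_smul] at ha
          exact x.rep_nonzero ha.symm
        refine ⟨a⁻¹, ?_⟩
        rw [← ha, smul_smul, inv_mul_cancel₀ ha0, one_smul]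
      intro f hf
      rw [ha]
      -- decompose f
      have h5 : ∀ t, eval (a • x.rep) (homogeneousComponent t f) = 0 := by
        intro t
        have h6 : eval x.rep (homogeneousComponent t f) = 0 := hRle (hRh f hf t)
        have h7 := eval_scale (homogeneousComponent_isHomogeneous t f) a x.rep
        rw [h6, mul_zero] at h7
        exact h7
      rw [← sum_homogeneousComponent f, map_sum]
      exact Finset.sum_eq_zero (fun t _ => h5 t)) (by
    intro p hp q hq hpq
    rw [Finset.mem_image] at hp hq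
    obtain ⟨x, hx, rfl⟩ := hp
    obtain ⟨x', hx', rfl⟩ := hq
    rw [Set.Finite.mem_toFinset] at hx hx'
    obtain ⟨-, h2, h3⟩ := hz x hx
    obtain ⟨-, h2', h3'⟩ := hz x' hx'
    have hxx : x = x' := by
      rw [h3, h3', Projectivization.mk_eq_mk_iff']
      obtain ⟨j, hj⟩ : ∃ j, z x' j ≠ 0 := by
        by_contra hcon
        push Not at hcon
        apply h2'
        funext i
        simp [hcon i]
      refine ⟨(z x j : ℚ) / (z x' j : ℚ), ?_⟩
      funext i
      have h8 := hpq i j
      have hj' : (z x' j : ℚ) ≠ 0 := by exact_mod_cast hj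
      simp only [Pi.smul_apply, smul_eq_mul]
      rw [div_mul_eq_mul_div, div_eq_iff hj']
      have h9 : (z x j : ℚ) * (z x' i : ℚ) = (z x i : ℚ) * (z x' j : ℚ) := by exact_mod_cast h8
      exact h9
    rw [hxx])
  have hcard : (hfin.toFinset.image z).card = (points n I B).ncard := by
    rw [Finset.card_image_of_injOn]
    · rw [Set.ncard_eq_toFinset_card _ hfin]
    · rw [Set.Finite.coe_toFinset]
      exact hinj
  rw [hcard] at h
  have hdeg0 : 0 ≤ degree n k I := by
    unfold degree
    apply Finset.sum_nonneg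
    intro P hP
    rw [Set.Finite.mem_toFinset] at hP
    linarith [(primeDegree_tendsto hP.1.1 (isHomog_minimalPrime hI hP) (hdim P hP)).2]
  refine h.trans ?_
  apply mul_le_mul_of_nonneg_left _ (by positivity)
  exact pow_le_pow_left₀ (by positivity) hBnB _

end Pool.Agent.Results.MP_a053e2_nt.SublinearSchwartzZippel
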